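import Pool.Agent.H820R2.SS.Final

/-!
# Strong sequentiality of orthogonal term rewriting systems is EXPTIME-complete

`lang SSOrth` is the language of the codes of the orthogonal strongly sequential TRSs.  The lower
bounds hold for every language `S` that contains the code of an orthogonal TRS exactly when the TRS
is strongly sequential (nothing is assumed about other strings), that is, for every language that
solves the decision problem SS-ORTH.
-/

namespace Pool.Agent.Results.MP_ce3b04_lc.ExptimeComplete

open Pool.Agent.NPC Pool.Agent.H820R2.SS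

theorem result :
    -- SS-ORTH is in EXPTIME
    InEXPTIME (lang SSOrth) ∧
    (∀ R : TRS, Orthogonal R → (bits R ∈ lang SSOrth ↔ StronglySequential R)) ∧
    -- lower bounds for every language that solves SS-ORTH
    (∀ S : Set (List Bool), (∀ R : TRS, Orthogonal R → (bits R ∈ S ↔ StronglySequential R)) →
      (∀ L : Set (List Bool), InEXPTIME L → Reduces L S) ∧ NPHard S ∧ CoNPHard S ∧ ¬ InP S ∧
      (InNP S → ∀ L : Set (List Bool), InNP L ↔ InEXPTIME L)) ∧
    -- SS-ORTH is NP-complete if and only if NP = EXPTIME
    ((InNP (lang SSOrth) ∧ NPHard (lang SSOrth)) ↔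
      ∀ L : Set (List Bool), InNP L ↔ InEXPTIME L) := by
  have key : ∀ S : Set (List Bool),
      (∀ R : TRS, Orthogonal R → (bits R ∈ S ↔ StronglySequential R)) →
      InNP S → ∀ L : Set (List Bool), InNP L ↔ InEXPTIME L := fun S hS h L =>
    ⟨inEXPTIME_of_inNP, fun hL => Pool.Agent.H622R2.InNP.of_reduces (exptimeHard_of hS hL) h⟩
  exact ⟨inEXPTIME_ssOrth, ssOrth_solves,
    fun S hS => ⟨fun L hL => exptimeHard_of hS hL, nPHard_of hS, coNPHard_of hS, not_inP_of hS,
      key S hS⟩,
    fun h => key _ ssOrth_solves h.1, fun h => ⟨(h _).2 inEXPTIME_ssOrth, nPHard_of ssOrth_solves⟩⟩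

end Pool.Agent.Results.MP_ce3b04_lc.ExptimeComplete
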